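import Pool.Agent.helper83.LS.Spec

set_option autoImplicit false

/-!
# Module `U3c` of project ls (MP_60c1a7_co)

The lowest point `M` is below `p` and it is the rightmost point: root `M`, edge `(p, M, false)`,
then full attachment from the right for `un (un t)`.
-/

namespace LSH

theorem U3c (hFA : FA_stmt) (hRL1 : RL1_stmt) (hAU : AU_stmt) (hOB : OB_stmt) (hEE : EE_stmt) :
    U3c_stmt := by
  intro t hL S p M hcard hgen hleft hM hlow hMp hright
  have hL2 : LL (.un (.un t)) := hRL1.2 _ (hRL1.2 _ hL)
  have hcardR : (S.erase M).card = (BT.un (BT.un t)).size := by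
    rw [Finset.card_erase_of_mem hM, hcard]
    simp only [BT.size]
    omega
  have hgenR : Gen (insert M ((S.erase M : Finset Pt) : Set Pt)) := by
    intro a ha b hb hab
    refine hgen a ?_ b ?_ hab
    · rcases ha with h | h
      · exact Or.inr (h ▸ hM)
      · exact Or.inr (Finset.mem_of_mem_erase h)
    · rcases hb with h | h
      · exact Or.inr (h ▸ hM)
      · exact Or.inr (Finset.mem_of_mem_erase h)
  have hR : ∀ s ∈ S.erase M, s.1 < M.1 ∧ M.2 < s.2 ∧ p.1 < s.1 := by
    intro s hs
    have hsS := Finset.mem_of_mem_erase hs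
    have hne := Finset.ne_of_mem_erase hs
    have hg := hgen s (Or.inr hsS) M (Or.inr hM) hne
    exact ⟨lt_of_le_of_ne (hright s hsS) hg.1, lt_of_le_of_ne (hlow s hsS) (Ne.symm hg.2),
      hleft s hsS⟩
  obtain ⟨d, hd, -⟩ := (hFA _ hL2 (S.erase M) M hcardR hgenR).2.1 (fun s hs => (hR s hs).1)
  have hpM : p.1 < M.1 := hleft M hM
  have hroot : d.root ∈ S.erase M := by
    have := hEE.2.1 d
    rw [hd.2.1] at this
    exact this
  have hedge : ∀ e ∈ d.edges, e.a ∈ S.erase M ∧ e.b ∈ S.erase M := by
    intro e he
    have := hEE.1 d e he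
    rw [hd.2.1] at this
    exact this
  have hnc : ∀ e ∈ att M false d, NC ⟨p, M, false⟩ e := by
    intro e he z hz1 hz2
    rcases List.mem_cons.1 he with rfl | he
    · -- the edge from `M` to the root
      have hr := hR _ hroot
      have h1 := hOB.1 _ _ hz1
      have h2 := hOB.1 _ _ hz2
      simp only [Edge.on, Set.mem_uIcc] at hz1 hz2 h1 h2
      have hzM : z = M := by
        rcases hz1 with ⟨h, _⟩ | ⟨_, hz1⟩
        · exact absurd h (by simp)
        rcases hz2 with ⟨h, _⟩ | ⟨_, hz2⟩
        · exact absurd h (by simp)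
        rcases hz2 with ⟨hx, hy⟩ | ⟨hy, hx⟩
        · rcases hz1 with ⟨hx', _⟩ | ⟨hy', _⟩
          · exfalso
            rw [hx'] at hx
            exact absurd hx (ne_of_lt hpM)
          · exact Prod.ext hx hy'
        · rcases hz1 with ⟨hx', _⟩ | ⟨hy', _⟩
          · exfalso
            rcases hx with hx | hx
            · linarith [hr.1, hr.2.2, hx.1, hx.2]
            · linarith [hr.1, hr.2.2, hx.1, hx.2]
          · exfalso
            rw [hy'] at hy
            exact absurd hy (ne_of_lt hr.2.1)
      exact ⟨Or.inr hzM, Or.inl hzM⟩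
    · exfalso
      have hab := hedge e he
      have ha := hR _ hab.1
      have hb := hR _ hab.2
      have h2 := hOB.1 _ _ hz2
      rw [Set.mem_uIcc, Set.mem_uIcc] at h2
      have hz : p.1 < z.1 ∧ M.2 < z.2 := by
        constructor
        · rcases h2.1 with h | h
          · linarith [h.1, ha.2.2]
          · linarith [h.1, hb.2.2]
        · rcases h2.2 with h | h
          · linarith [h.1, ha.2.1]
          · linarith [h.1, hb.2.1]
      simp only [Edge.on] at hz1
      rcases hz1 with ⟨h, _⟩ | ⟨_, hz1⟩
      · exact absurd h (by simp)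
      rcases hz1 with ⟨hx, _⟩ | ⟨hy, _⟩
      · linarith [hz.1]
      · linarith [hz.2]
  have hfin := hAU p M false false (.un (.un t)) (S.erase M) d hd (Finset.notMem_erase M S) hnc
  rw [Finset.insert_erase hM] at hfin
  exact ⟨.un M false d, false, hfin, Or.inr hMp⟩

end LSH
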